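import Pool.Agent.Helper57.Env.Stmts

/-!
# Assembly for MP_07d5fa_co, part 1: basic facts
-/

namespace Pool.Agent.Helper57.Env

open Set

variable {ι : Type} {s t : ℕ} (F : Par ι s t)

theorem oc_eq (a b : ι) (o : Or F a b) (τ : ℝ) :
    F.f a (oc F a b o τ) = F.f b (oc F a b o τ) := F.c_eq _ _ _ _

theorem oc_cont (a b : ι) (o : Or F a b) : Continuous (oc F a b o) := by
  rcases o with ⟨α, d⟩
  cases d
  · have h : oc F a b (α, false) = fun τ => F.c a b α (-τ) := by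
      funext τ; simp [oc]
    rw [h]
    exact (F.c_cont a b α).comp continuous_neg
  · have h : oc F a b (α, true) = fun τ => F.c a b α τ := by
      funext τ; simp [oc]
    rw [h]
    exact F.c_cont a b α

/-- orientation, arc and parameter are determined by the point and the orientation -/
theorem oc_inj {a b : ι} {o o' : Or F a b} {τ τ' : ℝ} (h : oc F a b o τ = oc F a b o' τ')
    (hd : o.2 = o'.2) : o = o' ∧ τ = τ' := by
  unfold oc at h
  obtain ⟨h1, h2⟩ := F.c_inj _ _ _ _ _ _ h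
  rcases o with ⟨α, d⟩
  rcases o' with ⟨α', d'⟩
  simp only at h1 hd h2
  subst h1 hd
  refine ⟨rfl, ?_⟩
  cases d
  · simpa using h2
  · simpa using h2

theorem triple_finite {a b c : ι} (hab : a ≠ b) (hac : a ≠ c) (hbc : b ≠ c) :
    {x | F.f a x = F.f b x ∧ F.f b x = F.f c x}.Finite := by
  have h := F.triple a b c hab hac hbc
  exact Set.finite_of_encard_le_coe h

theorem triple_ncard {a b c : ι} (hab : a ≠ b) (hac : a ≠ c) (hbc : b ≠ c) :
    {x | F.f a x = F.f b x ∧ F.f b x = F.f c x}.ncard ≤ s := by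
  have h := F.triple a b c hab hac hbc
  have h2 := (triple_finite F hab hac hbc).cast_ncard_eq
  rw [← h2] at h
  exact_mod_cast h

theorem exists_is3 {T : Finset ι} (hT : T.card = 3) : ∃ a b c, Is3 T a b c ∧
    ∀ x, x ∈ T ↔ x = a ∨ x = b ∨ x = c := by
  classical
  obtain ⟨a, b, c, hab, hac, hbc, rfl⟩ := Finset.card_eq_three.1 hT
  refine ⟨a, b, c, ⟨by simp, by simp, by simp, hab, hac, hbc⟩, fun x => by simp⟩

theorem is3_mem {T : Finset ι} (hT : T.card = 3) {a b c : ι} (h : Is3 T a b c) (x : ι) :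
    x ∈ T ↔ x = a ∨ x = b ∨ x = c := by
  classical
  obtain ⟨ha, hb, hc, hab, hac, hbc⟩ := h
  have hsub : ({a, b, c} : Finset ι) ⊆ T := by
    intro y hy
    simp only [Finset.mem_insert, Finset.mem_singleton] at hy
    rcases hy with rfl | rfl | rfl <;> assumption
  have hcard : ({a, b, c} : Finset ι).card = 3 := Finset.card_eq_three.2 ⟨a, b, c, hab, hac, hbc, rfl⟩
  have heq := Finset.eq_of_subset_of_card_le hsub (by rw [hT, hcard])
  rw [← heq]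
  simp

theorem TP_eq {T : Finset ι} (hT : T.card = 3) {a b c : ι} (h : Is3 T a b c) :
    TP F T = {x | F.f a x = F.f b x ∧ F.f b x = F.f c x} := by
  ext x
  unfold TP
  constructor
  · intro hx
    exact ⟨hx a h.1 b h.2.1, hx b h.2.1 c h.2.2.1⟩
  · rintro ⟨h1, h2⟩ y hy z hz
    rw [is3_mem hT h] at hy hz
    rcases hy with rfl | rfl | rfl <;> rcases hz with rfl | rfl | rfl <;> simp [h1, h2]

theorem TP_finite {T : Finset ι} (hT : T.card = 3) : (TP F T).Finite := by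
  obtain ⟨a, b, c, h, -⟩ := exists_is3 hT
  rw [TP_eq F hT h]
  exact triple_finite F h.2.2.2.1 h.2.2.2.2.1 h.2.2.2.2.2

theorem TP_ncard {T : Finset ι} (hT : T.card = 3) : (TP F T).ncard ≤ s := by
  obtain ⟨a, b, c, h, -⟩ := exists_is3 hT
  rw [TP_eq F hT h]
  exact triple_ncard F h.2.2.2.1 h.2.2.2.2.1 h.2.2.2.2.2

/-! ### The objects of the recursion -/

/-- The index set of a quadruple. -/
noncomputable def qT (z : ι × ι × ι × (ℝ × ℝ)) : Finset ι :=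
  haveI := Classical.decEq ι
  {z.1, z.2.1, z.2.2.1}

theorem mem_qT (z : ι × ι × ι × (ℝ × ℝ)) (l : ι) :
    l ∈ qT z ↔ l = z.1 ∨ l = z.2.1 ∨ l = z.2.2.1 := by
  unfold qT
  simp

/-- The functions below a quadruple. -/
noncomputable def qB [Finite ι] (z : ι × ι × ι × (ℝ × ℝ)) : Finset ι :=
  (Set.toFinite {l | F.f l z.2.2.2 < F.f z.1 z.2.2.2}).toFinset

theorem mem_qB [Finite ι] (z : ι × ι × ι × (ℝ × ℝ)) (l : ι) :
    l ∈ qB F z ↔ F.f l z.2.2.2 < F.f z.1 z.2.2.2 := by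
  unfold qB
  simp

/-- All quadruples. -/
def qO : Set (ι × ι × ι × (ℝ × ℝ)) :=
  {z | (z.1 ≠ z.2.1 ∧ z.1 ≠ z.2.2.1 ∧ z.2.1 ≠ z.2.2.1) ∧
    (F.f z.1 z.2.2.2 = F.f z.2.1 z.2.2.2 ∧ F.f z.2.1 z.2.2.2 = F.f z.2.2.1 z.2.2.2)}

theorem qT_card {z : ι × ι × ι × (ℝ × ℝ)} (hz : z ∈ qO F) : (qT z).card = 3 := by
  classical
  obtain ⟨⟨h1, h2, h3⟩, -⟩ := hz
  refine Finset.card_eq_three.2 ⟨z.1, z.2.1, z.2.2.1, h1, h2, h3, ?_⟩
  ext l
  rw [mem_qT]
  simp

theorem Q_eq [Finite ι] (R : Finset ι) (k : ℕ) : Q F R k =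
    {z | z ∈ qO F ∧ qT z ⊆ R ∧ {l | l ∈ qB F z ∧ l ∈ R}.ncard ≤ k} := by
  ext z
  unfold Q qO lev
  constructor
  · rintro ⟨⟨h1, h2, h3⟩, h4, h5, h6⟩
    refine ⟨⟨h4, h5⟩, ?_, ?_⟩
    · intro l hl
      rw [mem_qT] at hl
      rcases hl with rfl | rfl | rfl <;> assumption
    · convert h6 using 2
      ext l
      exact ⟨fun h => ⟨h.2, (mem_qB F z l).1 h.1⟩, fun h => ⟨(mem_qB F z l).2 h.2, h.1⟩⟩
  · rintro ⟨⟨h4, h5⟩, h7, h6⟩
    refine ⟨⟨h7 ((mem_qT z _).2 (Or.inl rfl)), h7 ((mem_qT z _).2 (Or.inr (Or.inl rfl))),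
      h7 ((mem_qT z _).2 (Or.inr (Or.inr rfl)))⟩, h4, h5, ?_⟩
    convert h6 using 2
    ext l
    exact ⟨fun h => ⟨(mem_qB F z l).2 h.2, h.1⟩, fun h => ⟨h.2, (mem_qB F z l).1 h.1⟩⟩

theorem qO_fiber_subset [DecidableEq ι] (R : Finset ι) : {z | z ∈ qO F ∧ qT z ⊆ R} ⊆
    ⋃ y ∈ ((R ×ˢ R ×ˢ R).filter fun y => y.1 ≠ y.2.1 ∧ y.1 ≠ y.2.2 ∧ y.2.1 ≠ y.2.2 :
      Finset (ι × ι × ι)),
      (fun x => (y.1, y.2.1, y.2.2, x)) ''
        {x | F.f y.1 x = F.f y.2.1 x ∧ F.f y.2.1 x = F.f y.2.2 x} := by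
  rintro z ⟨⟨h1, h2⟩, h3⟩
  simp only [mem_iUnion]
  refine ⟨(z.1, z.2.1, z.2.2.1), ?_, z.2.2.2, h2, rfl⟩
  simp only [Finset.mem_filter, Finset.mem_product]
  exact ⟨⟨h3 ((mem_qT z _).2 (Or.inl rfl)), h3 ((mem_qT z _).2 (Or.inr (Or.inl rfl))),
      h3 ((mem_qT z _).2 (Or.inr (Or.inr rfl)))⟩, h1⟩

theorem ncard_biUnion_le {α β : Type*} (I : Finset α) (S : α → Set β) (k : ℕ)
    (h : ∀ a ∈ I, (S a).Finite ∧ (S a).ncard ≤ k) :
    (⋃ a ∈ I, S a).Finite ∧ (⋃ a ∈ I, S a).ncard ≤ I.card * k := by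
  classical
  induction I using Finset.induction_on with
  | empty => simp
  | insert a I ha ih =>
    have h1 := ih fun b hb => h b (Finset.mem_insert_of_mem hb)
    have h2 := h a (Finset.mem_insert_self a I)
    rw [Finset.set_biUnion_insert]
    refine ⟨h2.1.union h1.1, ?_⟩
    rw [Finset.card_insert_of_notMem ha, Nat.succ_mul]
    calc (S a ∪ ⋃ x ∈ I, S x).ncard ≤ (S a).ncard + (⋃ x ∈ I, S x).ncard :=
          Set.ncard_union_le _ _
      _ ≤ I.card * k + k := by omega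

theorem qO_fiber (R : Finset ι) : {z | z ∈ qO F ∧ qT z ⊆ R}.Finite ∧
    {z | z ∈ qO F ∧ qT z ⊆ R}.ncard ≤ R.card ^ 3 * s := by
  classical
  have h := ncard_biUnion_le ((R ×ˢ R ×ˢ R).filter fun y => y.1 ≠ y.2.1 ∧ y.1 ≠ y.2.2 ∧
      y.2.1 ≠ y.2.2 : Finset (ι × ι × ι)) (fun y => (fun x => (y.1, y.2.1, y.2.2, x)) ''
        {x | F.f y.1 x = F.f y.2.1 x ∧ F.f y.2.1 x = F.f y.2.2 x}) s (by
    intro y hy
    simp only [Finset.mem_filter] at hy
    obtain ⟨-, h1, h2, h3⟩ := hy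
    exact ⟨(triple_finite F h1 h2 h3).image _,
      (Set.ncard_image_le (triple_finite F h1 h2 h3)).trans (triple_ncard F h1 h2 h3)⟩)
  refine ⟨h.1.subset (qO_fiber_subset F R), ?_⟩
  refine (Set.ncard_le_ncard (qO_fiber_subset F R) h.1).trans (h.2.trans ?_)
  refine Nat.mul_le_mul_right s ((Finset.card_filter_le _ _).trans ?_)
  rw [Finset.card_product, Finset.card_product]
  apply le_of_eq
  ring

theorem qO_finite [Finite ι] : (qO F).Finite := by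
  classical
  haveI := Fintype.ofFinite ι
  have h := (qO_fiber F Finset.univ).1
  refine h.subset fun z hz => ⟨hz, fun l _ => Finset.mem_univ l⟩

theorem qT_qB_disjoint [Finite ι] {z : ι × ι × ι × (ℝ × ℝ)} (hz : z ∈ qO F) :
    Disjoint (qT z) (qB F z) := by
  rw [Finset.disjoint_left]
  intro l hl hl'
  rw [mem_qT] at hl
  rw [mem_qB] at hl'
  obtain ⟨-, h1, h2⟩ := hz
  rcases hl with rfl | rfl | rfl
  · exact lt_irrefl _ hl'
  · rw [h1] at hl'; exact lt_irrefl _ hl'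
  · rw [h1, h2] at hl'; exact lt_irrefl _ hl'

end Pool.Agent.Helper57.Env
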