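import Pool.Agent.Helper57.Env.Asm1

/-!
# Assembly for MP_07d5fa_co, part 2: the recursion inequality
-/

namespace Pool.Agent.Helper57.Env

open Set

variable {ι : Type} {s t : ℕ} (F : Par ι s t)

/-- Unordered vertices of level `0`. -/
def V0 (R : Finset ι) : Set (Finset ι × (ℝ × ℝ)) :=
  {y | y.1 ⊆ R ∧ y.1.card = 3 ∧ y.2 ∈ TP F y.1 ∧ Above F R y.1 y.2}

/-- Vertices charged to long intervals. -/
def V1 (R : Finset ι) (k ξ : ℕ) : Set (Finset ι × (ℝ × ℝ)) :=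
  {y | y.1 ⊆ R ∧ y.1.card = 3 ∧ y.2 ∈ TP F y.1 ∧
    ∃ u ∈ TP F y.1, ∃ a b c, Is3 y.1 a b c ∧ ∃ (o : Or F a b) (τ : ℝ), oc F a b o τ = u ∧
      lev F R a u ≤ k ∧ ξ ≤ (evR F R a b c o τ).ncard}

/-- Vertices with a small conflict set. -/
def V2 (R : Finset ι) (k : ℕ) : Set (Finset ι × (ℝ × ℝ)) :=
  {y | y.1 ⊆ R ∧ y.1.card = 3 ∧ y.2 ∈ TP F y.1 ∧
    ∃ L : Finset ι, L ⊆ R ∧ Disjoint y.1 L ∧ L.card ≤ k ∧
      ∀ R' : Finset ι, y.1 ⊆ R' → R' ⊆ R → Disjoint R' L →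
        CleanI F R' y.1 ∨ CleanU F R' y.1 ∨ CleanK F R' y.1 y.2}

theorem big_finite (R : Finset ι) :
    {y : Finset ι × (ℝ × ℝ) | y.1 ⊆ R ∧ y.1.card = 3 ∧ y.2 ∈ TP F y.1}.Finite := by
  classical
  have h := ncard_biUnion_le (R.powersetCard 3) (fun T => (fun x => (T, x)) '' TP F T) s (by
    intro T hT
    rw [Finset.mem_powersetCard] at hT
    exact ⟨(TP_finite F hT.2).image _,
      (Set.ncard_image_le (TP_finite F hT.2)).trans (TP_ncard F hT.2)⟩)
  refine h.1.subset ?_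
  rintro ⟨T, x⟩ ⟨h1, h2, h3⟩
  simp only [mem_iUnion]
  exact ⟨T, Finset.mem_powersetCard.2 ⟨h1, h2⟩, x, h3, rfl⟩

theorem V0_finite (R : Finset ι) : (V0 F R).Finite :=
  (big_finite F R).subset fun _ h => ⟨h.1, h.2.1, h.2.2.1⟩

theorem V1_finite (R : Finset ι) (k ξ : ℕ) : (V1 F R k ξ).Finite :=
  (big_finite F R).subset fun _ h => ⟨h.1, h.2.1, h.2.2.1⟩

theorem V2_finite (R : Finset ι) (k : ℕ) : (V2 F R k).Finite :=
  (big_finite F R).subset fun _ h => ⟨h.1, h.2.1, h.2.2.1⟩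

/-- ordered versus unordered -/
theorem Q0_le (R : Finset ι) : (Q F R 0).ncard ≤ (V0 F R).ncard * 27 := by
  classical
  have hfin := V0_finite F R
  have h := ncard_biUnion_le hfin.toFinset (fun y : Finset ι × (ℝ × ℝ) =>
    (((y.1 ×ˢ y.1 ×ˢ y.1).image fun w => (w.1, w.2.1, w.2.2, y.2) :
      Finset (ι × ι × ι × (ℝ × ℝ))) : Set (ι × ι × ι × (ℝ × ℝ)))) 27 (by
    intro y hy
    rw [Set.Finite.mem_toFinset] at hy
    refine ⟨Finset.finite_toSet _, ?_⟩
    rw [Set.ncard_coe_finset]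
    refine Finset.card_image_le.trans ?_
    rw [Finset.card_product, Finset.card_product, hy.2.1])
  have hsub : Q F R 0 ⊆ ⋃ y ∈ hfin.toFinset, (((y.1 ×ˢ y.1 ×ˢ y.1).image
      fun w => (w.1, w.2.1, w.2.2, y.2) : Finset (ι × ι × ι × (ℝ × ℝ))) :
        Set (ι × ι × ι × (ℝ × ℝ))) := by
    rintro ⟨a, b, c, x⟩ ⟨⟨h1, h2, h3⟩, ⟨h4, h5, h6⟩, ⟨h7, h8⟩, h9⟩
    simp only at h1 h2 h3 h4 h5 h6 h7 h8 h9
    have hcard : ({a, b, c} : Finset ι).card = 3 :=
      Finset.card_eq_three.2 ⟨a, b, c, h4, h5, h6, rfl⟩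
    have hIs : Is3 ({a, b, c} : Finset ι) a b c :=
      ⟨by simp, by simp, by simp, h4, h5, h6⟩
    have hy : (({a, b, c} : Finset ι), x) ∈ V0 F R := by
      refine ⟨?_, hcard, ?_, ?_⟩
      · intro l hl
        simp only [Finset.mem_insert, Finset.mem_singleton] at hl
        rcases hl with rfl | rfl | rfl <;> assumption
      · rw [TP_eq F hcard hIs]
        exact ⟨h7, h8⟩
      · intro l hl hlT a' ha'
        have hae : F.f a' x = F.f a x := by
          simp only [Finset.mem_insert, Finset.mem_singleton] at ha'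
          rcases ha' with rfl | rfl | rfl
          · rfl
          · exact h7.symm
          · rw [h7, h8]
        simp only at hlT
        simp only [Finset.mem_insert, Finset.mem_singleton, not_or] at hlT
        simp only
        rw [hae]
        have hlev : {l | l ∈ R ∧ F.f l x < F.f a x} = ∅ := by
          unfold lev at h9
          have hf : {l | l ∈ R ∧ F.f l x < F.f a x}.Finite :=
            (Finset.finite_toSet R).subset fun l hl => hl.1
          have := Nat.le_zero.1 h9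
          rwa [Set.ncard_eq_zero hf] at this
        have hnl : ¬ F.f l x < F.f a x := by
          intro hlt
          have : l ∈ {l | l ∈ R ∧ F.f l x < F.f a x} := ⟨hl, hlt⟩
          rw [hlev] at this
          exact this
        rcases lt_or_eq_of_le (not_lt.1 hnl) with hlt | heq
        · exact hlt
        · exfalso
          exact F.quad a b c l h4 h5 (Ne.symm hlT.1) h6 (Ne.symm hlT.2.1) (Ne.symm hlT.2.2) x
            ⟨h7, h8, by rw [← h8, ← h7, heq]⟩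
    simp only [mem_iUnion]
    refine ⟨(({a, b, c} : Finset ι), x), (Set.Finite.mem_toFinset hfin).2 hy, ?_⟩
    simp only [Finset.coe_image, Set.mem_image, Finset.mem_coe, Finset.mem_product]
    exact ⟨(a, b, c), ⟨by simp, by simp, by simp⟩, rfl⟩
  refine (Set.ncard_le_ncard hsub h.1).trans (h.2.trans ?_)
  rw [Set.ncard_eq_toFinset_card _ hfin]

/-- the possible values of `evR.ncard` -/
theorem vals_finite (R T : Finset ι) (hT : T.card = 3) :
    {k : ℕ | ∃ u ∈ TP F T, ∃ a b c, Is3 T a b c ∧ ∃ (o : Or F a b) (τ : ℝ),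
      oc F a b o τ = u ∧ k = (evR F R a b c o τ).ncard}.Finite ∧
    {k : ℕ | ∃ u ∈ TP F T, ∃ a b c, Is3 T a b c ∧ ∃ (o : Or F a b) (τ : ℝ),
      oc F a b o τ = u ∧ k = (evR F R a b c o τ).ncard}.ncard ≤ 54 * s := by
  classical
  have hTP := TP_finite F hT
  have h := ncard_biUnion_le ((T ×ˢ T ×ˢ T) ×ˢ hTP.toFinset)
    (fun y : (ι × ι × ι) × (ℝ × ℝ) => {k : ℕ | ∃ (o : Or F y.1.1 y.1.2.1) (τ : ℝ),
      oc F y.1.1 y.1.2.1 o τ = y.2 ∧ k = (evR F R y.1.1 y.1.2.1 y.1.2.2 o τ).ncard}) 2 (by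
    rintro ⟨⟨a, b, c⟩, u⟩ -
    simp only
    have hsub : ∀ d : Bool, {k : ℕ | ∃ (o : Or F a b) (τ : ℝ), o.2 = d ∧
        oc F a b o τ = u ∧ k = (evR F R a b c o τ).ncard}.Subsingleton := by
      rintro d k ⟨o, τ, hd, ho, hk⟩ k' ⟨o', τ', hd', ho', hk'⟩
      obtain ⟨h1, h2⟩ := oc_inj F (ho.trans ho'.symm) (hd.trans hd'.symm)
      subst h1 h2
      rw [hk, hk']
    have hun : {k : ℕ | ∃ (o : Or F a b) (τ : ℝ),
        oc F a b o τ = u ∧ k = (evR F R a b c o τ).ncard} ⊆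
        {k : ℕ | ∃ (o : Or F a b) (τ : ℝ), o.2 = true ∧
        oc F a b o τ = u ∧ k = (evR F R a b c o τ).ncard} ∪
        {k : ℕ | ∃ (o : Or F a b) (τ : ℝ), o.2 = false ∧
        oc F a b o τ = u ∧ k = (evR F R a b c o τ).ncard} := by
      rintro k ⟨o, τ, ho, hk⟩
      cases hd : o.2
      · right; exact ⟨o, τ, hd, ho, hk⟩
      · left; exact ⟨o, τ, hd, ho, hk⟩
    have hf1 := (hsub true).finite
    have hf2 := (hsub false).finite
    refine ⟨(hf1.union hf2).subset hun, ?_⟩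
    refine (Set.ncard_le_ncard hun (hf1.union hf2)).trans
      ((Set.ncard_union_le _ _).trans ?_)
    haveI := hf1.to_subtype
    have e1 := Set.ncard_le_one_iff_subsingleton.2 (hsub true)
    haveI := hf2.to_subtype
    have e2 := Set.ncard_le_one_iff_subsingleton.2 (hsub false)
    omega)
  have hsub : {k : ℕ | ∃ u ∈ TP F T, ∃ a b c, Is3 T a b c ∧ ∃ (o : Or F a b) (τ : ℝ),
      oc F a b o τ = u ∧ k = (evR F R a b c o τ).ncard} ⊆
      ⋃ y ∈ ((T ×ˢ T ×ˢ T) ×ˢ hTP.toFinset), {k : ℕ | ∃ (o : Or F y.1.1 y.1.2.1) (τ : ℝ),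
      oc F y.1.1 y.1.2.1 o τ = y.2 ∧ k = (evR F R y.1.1 y.1.2.1 y.1.2.2 o τ).ncard} := by
    rintro k ⟨u, hu, a, b, c, hI, o, τ, ho, hk⟩
    simp only [mem_iUnion]
    refine ⟨((a, b, c), u), ?_, o, τ, ho, hk⟩
    simp only [Finset.mem_product, Set.Finite.mem_toFinset]
    exact ⟨⟨hI.1, hI.2.1, hI.2.2.1⟩, hu⟩
  refine ⟨h.1.subset hsub, (Set.ncard_le_ncard hsub h.1).trans (h.2.trans ?_)⟩
  rw [Finset.card_product, Finset.card_product, Finset.card_product, hT,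
    ← Set.ncard_eq_toFinset_card _ hTP]
  have := TP_ncard F hT
  omega

/-- pigeonhole over the scales -/
theorem V0_cover [Finite ι] (hD : StmtDich) (R : Finset ι) (ξ : ℕ → ℕ) (hξ : StrictMono ξ) :
    V0 F R ⊆ ⋃ m ∈ Finset.range (54 * s + 1),
      (V1 F R (12 * s * ξ m) (ξ (m + 1)) ∪ V2 F R (12 * s * ξ m)) := by
  classical
  rintro ⟨T, v⟩ ⟨h1, h2, h3, h4⟩
  simp only at h1 h2 h3 h4
  by_contra hcon
  simp only [mem_iUnion, not_exists] at hcon
  have key : ∀ m ∈ Finset.range (54 * s + 1), ∃ k ∈ {k : ℕ | ∃ u ∈ TP F T, ∃ a b c, Is3 T a b c ∧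
      ∃ (o : Or F a b) (τ : ℝ), oc F a b o τ = u ∧ k = (evR F R a b c o τ).ncard},
      ξ m ≤ k ∧ k < ξ (m + 1) := by
    intro m hm
    have hm' := hcon m hm
    rw [mem_union, not_or] at hm'
    rcases hD F R T v (ξ m) h1 h2 h3 h4 with ⟨u, hu, a, b, c, hI, o, τ, ho, hl, he⟩ | hL
    · refine ⟨(evR F R a b c o τ).ncard, ⟨u, hu, a, b, c, hI, o, τ, ho, rfl⟩, he, ?_⟩
      by_contra hlt
      exact hm'.1 ⟨h1, h2, h3, u, hu, a, b, c, hI, o, τ, ho, hl, not_lt.1 hlt⟩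
    · exact absurd ⟨h1, h2, h3, hL⟩ hm'.2
  obtain ⟨hf, hc⟩ := vals_finite F R T h2
  choose! φ hφ using key
  have hinj : Set.InjOn φ (Finset.range (54 * s + 1) : Set ℕ) := by
    intro m hm m' hm' he
    obtain ⟨-, a1, a2⟩ := hφ m hm
    obtain ⟨-, b1, b2⟩ := hφ m' hm'
    rw [he] at a1 a2
    by_contra hne
    rcases lt_or_gt_of_ne hne with hlt | hlt
    · have := hξ.monotone (Nat.succ_le_of_lt hlt)
      simp only [Nat.succ_eq_add_one] at this
      omega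
    · have := hξ.monotone (Nat.succ_le_of_lt hlt)
      simp only [Nat.succ_eq_add_one] at this
      omega
  have hle : (Finset.range (54 * s + 1)).card ≤ hf.toFinset.card :=
    Finset.card_le_card_of_injOn φ (fun m hm => by
      rw [Finset.mem_coe, Set.Finite.mem_toFinset]
      exact (hφ m hm).1) hinj
  rw [Finset.card_range, ← Set.ncard_eq_toFinset_card _ hf] at hle
  omega

end Pool.Agent.Helper57.Env
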