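import Pool.Agent.Helper57.Env.Asm2

/-!
# Assembly for MP_07d5fa_co, part 3: bound for the charged vertices
-/

namespace Pool.Agent.Helper57.Env

open Set

theorem ncard_biUnion_le_sum {α β : Type*} (I : Finset α) (S : α → Set β) (k : α → ℕ)
    (h : ∀ a ∈ I, (S a).Finite ∧ (S a).ncard ≤ k a) :
    (⋃ a ∈ I, S a).Finite ∧ (⋃ a ∈ I, S a).ncard ≤ ∑ a ∈ I, k a := by
  classical
  induction I using Finset.induction_on with
  | empty => simp
  | insert a I ha ih =>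
    have h1 := ih fun b hb => h b (Finset.mem_insert_of_mem hb)
    have h2 := h a (Finset.mem_insert_self a I)
    rw [Finset.set_biUnion_insert]
    refine ⟨h2.1.union h1.1, ?_⟩
    rw [Finset.sum_insert ha]
    calc (S a ∪ ⋃ x ∈ I, S x).ncard ≤ (S a).ncard + (⋃ x ∈ I, S x).ncard :=
          Set.ncard_union_le _ _
      _ ≤ k a + ∑ x ∈ I, k x := by omega

theorem sum_ncard_le {α β γ : Type*} (I : Finset α) (E : α → Set β) (W : Set γ)
    (φ : α → β → γ) (hE : ∀ a ∈ I, (E a).Finite) (hW : W.Finite)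
    (hm : ∀ a ∈ I, ∀ b ∈ E a, φ a b ∈ W)
    (hinj : ∀ a ∈ I, ∀ a' ∈ I, ∀ b ∈ E a, ∀ b' ∈ E a', φ a b = φ a' b' → a = a' ∧ b = b') :
    ∑ a ∈ I, (E a).ncard ≤ W.ncard := by
  classical
  have key : ∀ J : Finset α, J ⊆ I → (⋃ a ∈ J, φ a '' E a).Finite ∧
      ∑ a ∈ J, (E a).ncard ≤ (⋃ a ∈ J, φ a '' E a).ncard := by
    intro J
    induction J using Finset.induction_on with
    | empty => intro _; simp
    | insert a J ha ih =>
      intro hJ
      have haI : a ∈ I := hJ (Finset.mem_insert_self a J)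
      have h1 := ih fun b hb => hJ (Finset.mem_insert_of_mem hb)
      rw [Finset.set_biUnion_insert]
      refine ⟨((hE a haI).image _).union h1.1, ?_⟩
      rw [Finset.sum_insert ha, Set.ncard_union_eq ?_ ((hE a haI).image _) h1.1]
      · have : (φ a '' E a).ncard = (E a).ncard := by
          apply Set.ncard_image_of_injOn
          intro b hb b' hb' he
          exact (hinj a haI a haI b hb b' hb' he).2
        omega
      · rw [Set.disjoint_left]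
        rintro w ⟨b, hb, rfl⟩ hw
        simp only [mem_iUnion] at hw
        obtain ⟨a', ha', b', hb', he⟩ := hw
        have := (hinj a' (hJ (Finset.mem_insert_of_mem ha')) a haI b' hb' b hb he).1
        exact ha (this ▸ ha')
  obtain ⟨h1, h2⟩ := key I subset_rfl
  refine h2.trans (Set.ncard_le_ncard ?_ hW)
  intro w hw
  simp only [mem_iUnion] at hw
  obtain ⟨a, ha, b, hb, rfl⟩ := hw
  exact hm a ha b hb

variable {ι : Type} {s t : ℕ} (F : Par ι s t)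

/-- The function `f l - f a` along the arc. -/
noncomputable def gg (a b : ι) (o : Or F a b) (l : ι) (τ : ℝ) : ℝ :=
  F.f l (oc F a b o τ) - F.f a (oc F a b o τ)

theorem gg_cont (a b : ι) (o : Or F a b) (l : ι) : Continuous (gg F a b o l) :=
  ((F.cont l).comp (oc_cont F a b o)).sub ((F.cont a).comp (oc_cont F a b o))

theorem gg_zero (a b : ι) (o : Or F a b) (l : ι) (τ : ℝ) :
    gg F a b o l τ = 0 ↔ F.f l (oc F a b o τ) = F.f a (oc F a b o τ) := sub_eq_zero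

theorem gg_neg (a b : ι) (o : Or F a b) (l : ι) (τ : ℝ) :
    gg F a b o l τ < 0 ↔ F.f l (oc F a b o τ) < F.f a (oc F a b o τ) := sub_neg

theorem gg_finite {a b : ι} (o : Or F a b) {l : ι} (hab : a ≠ b) (hal : l ≠ a) (hbl : l ≠ b) :
    {τ | gg F a b o l τ = 0}.Finite := by
  have hf := triple_finite F hab hal.symm hbl.symm
  refine Set.Finite.of_finite_image (f := oc F a b o) (hf.subset ?_) ?_
  · rintro _ ⟨τ, hτ, rfl⟩
    have hτ' := (gg_zero F a b o l τ).1 hτ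
    exact ⟨oc_eq F a b o τ, by rw [← oc_eq F a b o τ, hτ']⟩
  · intro τ _ τ' _ he
    exact (oc_inj F he rfl).2

/-- The long events. -/
def Sab (R : Finset ι) (k ξ : ℕ) (a b : ι) (o : Or F a b) : Set (ι × ℝ) :=
  {p | (p.1 ∈ R ∧ p.1 ≠ a ∧ p.1 ≠ b) ∧ gg F a b o p.1 p.2 = 0 ∧ lev F R a (oc F a b o p.2) ≤ k ∧
    ξ ≤ (evR F R a b p.1 o p.2).ncard}

/-- The events. -/
def Eab (R : Finset ι) (k : ℕ) (a b : ι) (o : Or F a b) : Set (ι × ℝ) :=
  {p | (p.1 ∈ R ∧ p.1 ≠ a ∧ p.1 ≠ b) ∧ gg F a b o p.1 p.2 = 0 ∧ lev F R a (oc F a b o p.2) ≤ k}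

theorem Eab_finite (R : Finset ι) (k : ℕ) {a b : ι} (hab : a ≠ b) (o : Or F a b) :
    (Eab F R k a b o).Finite := by
  classical
  have h : (⋃ l ∈ (R.filter fun l => l ≠ a ∧ l ≠ b),
      (fun τ => (l, τ)) '' {τ | gg F a b o l τ = 0}).Finite := by
    refine Set.Finite.biUnion (Finset.finite_toSet _) ?_
    intro l hl
    rw [Finset.mem_coe, Finset.mem_filter] at hl
    exact (gg_finite F o hab hl.2.1 hl.2.2).image _
  refine h.subset ?_
  rintro ⟨l, τ⟩ ⟨h1, h2, -⟩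
  simp only [mem_iUnion]
  exact ⟨l, Finset.mem_filter.2 h1, τ, h2, rfl⟩

theorem Sab_subset (R : Finset ι) (k ξ : ℕ) (a b : ι) (o : Or F a b) :
    Sab F R k ξ a b o ⊆ Eab F R k a b o := fun _ h => ⟨h.1, h.2.1, h.2.2.1⟩

theorem lev_eq (R : Finset ι) [DecidableEq ι] (a b : ι) (o : Or F a b) (τ : ℝ) :
    {l | l ∈ (R.filter fun l => l ≠ a ∧ l ≠ b) ∧ gg F a b o l τ < 0} =
      {l | l ∈ R ∧ F.f l (oc F a b o τ) < F.f a (oc F a b o τ)} := by
  ext l
  simp only [mem_setOf_eq, Finset.mem_filter, gg_neg]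
  constructor
  · rintro ⟨⟨h1, -⟩, h2⟩
    exact ⟨h1, h2⟩
  · rintro ⟨h1, h2⟩
    refine ⟨⟨h1, ?_, ?_⟩, h2⟩
    · rintro rfl; exact lt_irrefl _ h2
    · rintro rfl
      rw [oc_eq F] at h2
      exact lt_irrefl _ h2

theorem charge_ab (hC : StmtCharge) (R : Finset ι) (k ξ : ℕ) {a b : ι} (hab : a ≠ b)
    (o : Or F a b) :
    ξ * (Sab F R k ξ a b o).ncard ≤ (k + 1) * (Eab F R (k + ξ) a b o).ncard := by
  classical
  have h := hC (R.filter fun l => l ≠ a ∧ l ≠ b) (gg F a b o)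
    (fun l _ => gg_cont F a b o l)
    (fun l hl => by
      rw [Finset.mem_filter] at hl
      exact gg_finite F o hab hl.2.1 hl.2.2)
    (fun l hl l' hl' hne τ h1 h2 => by
      rw [Finset.mem_filter] at hl hl'
      rw [gg_zero] at h1 h2
      have e := oc_eq F a b o τ
      exact F.quad a b l l' hab hl.2.1.symm hl'.2.1.symm hl.2.2.symm hl'.2.2.symm hne
        (oc F a b o τ) ⟨e, by rw [← e, h1], by rw [h1, h2]⟩) k ξ
  have e1 : {p : ι × ℝ | p.1 ∈ (R.filter fun l => l ≠ a ∧ l ≠ b) ∧ gg F a b o p.1 p.2 = 0 ∧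
      {l | l ∈ (R.filter fun l => l ≠ a ∧ l ≠ b) ∧ gg F a b o l p.2 < 0}.ncard ≤ k ∧
          ξ ≤ {q : ι × ℝ | q.1 ∈ (R.filter fun l => l ≠ a ∧ l ≠ b) ∧ q.1 ≠ p.1 ∧
            gg F a b o q.1 q.2 = 0 ∧ p.2 < q.2 ∧
            ∀ σ ∈ Ioc p.2 q.2, gg F a b o p.1 σ < 0}.ncard} = Sab F R k ξ a b o := by
    ext ⟨c, τ⟩
    unfold Sab lev
    simp only [mem_setOf_eq]
    rw [lev_eq]
    have e2 : {q : ι × ℝ | q.1 ∈ (R.filter fun l => l ≠ a ∧ l ≠ b) ∧ q.1 ≠ c ∧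
            gg F a b o q.1 q.2 = 0 ∧ τ < q.2 ∧
            ∀ σ ∈ Ioc τ q.2, gg F a b o c σ < 0} = evR F R a b c o τ := by
      ext q
      unfold evR
      simp only [mem_setOf_eq, Finset.mem_filter, gg_neg, gg_zero]
      tauto
    rw [e2, Finset.mem_filter]
  have e3 : {q : ι × ℝ | q.1 ∈ (R.filter fun l => l ≠ a ∧ l ≠ b) ∧ gg F a b o q.1 q.2 = 0 ∧
          {l | l ∈ (R.filter fun l => l ≠ a ∧ l ≠ b) ∧ gg F a b o l q.2 < 0}.ncard ≤ k + ξ} =
          Eab F R (k + ξ) a b o := by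
    ext ⟨c, τ⟩
    unfold Eab lev
    simp only [mem_setOf_eq]
    rw [lev_eq, Finset.mem_filter]
  rw [e1, e3] at h
  exact h

/-- The index set of the oriented arcs. -/
noncomputable def arcs (R : Finset ι) : Finset (Σ ab : ι × ι, Or F ab.1 ab.2) :=
  haveI := Classical.decEq ι
  ((R ×ˢ R).filter fun ab => ab.1 ≠ ab.2).sigma fun _ => Finset.univ

theorem mem_arcs (R : Finset ι) (y : Σ ab : ι × ι, Or F ab.1 ab.2) :
    y ∈ arcs F R ↔ (y.1.1 ∈ R ∧ y.1.2 ∈ R) ∧ y.1.1 ≠ y.1.2 := by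
  classical
  unfold arcs
  rw [Finset.mem_sigma]
  simp

theorem qO_sub_finite (R : Finset ι) (k : ℕ) : (Q F R k).Finite := by
  refine (qO_fiber F R).1.subset ?_
  rintro z ⟨⟨h1, h2, h3⟩, h4, h5, -⟩
  refine ⟨⟨h4, h5⟩, ?_⟩
  intro l hl
  rw [mem_qT] at hl
  rcases hl with rfl | rfl | rfl <;> assumption

theorem sum_Eab (R : Finset ι) (k : ℕ) :
    ∑ y ∈ arcs F R, (Eab F R k y.1.1 y.1.2 y.2).ncard ≤ 2 * (Q F R k).ncard := by
  classical
  have h := sum_ncard_le (arcs F R) (fun y => Eab F R k y.1.1 y.1.2 y.2)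
    ((Q F R k) ×ˢ (univ : Set Bool))
    (fun y p => ((y.1.1, y.1.2, p.1, oc F y.1.1 y.1.2 y.2 p.2), y.2.2))
    (fun y hy => by
      rw [mem_arcs] at hy
      exact Eab_finite F R k hy.2 y.2)
    ((qO_sub_finite F R k).prod finite_univ)
    (by
      rintro ⟨⟨a, b⟩, o⟩ hy ⟨c, τ⟩ ⟨⟨h1, h2, h3⟩, h4, h5⟩
      rw [mem_arcs] at hy
      refine ⟨?_, mem_univ _⟩
      simp only at hy h1 h2 h3 h4 h5
      rw [gg_zero] at h4
      refine ⟨⟨hy.1.1, hy.1.2, h1⟩, ⟨hy.2, h2.symm, h3.symm⟩, ⟨oc_eq F a b o τ, ?_⟩, h5⟩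
      simp only
      rw [← oc_eq F a b o τ, h4])
    (by
      rintro ⟨⟨a, b⟩, o⟩ - ⟨⟨a', b'⟩, o'⟩ - ⟨c, τ⟩ - ⟨c', τ'⟩ - he
      simp only [Prod.mk.injEq] at he
      obtain ⟨⟨rfl, rfl, rfl, h1⟩, h2⟩ := he
      obtain ⟨h3, h4⟩ := oc_inj F h1 h2
      subst h3 h4
      exact ⟨rfl, rfl⟩)
  rw [Set.ncard_prod] at h
  have h2 : (univ : Set Bool).ncard = 2 := by
    rw [Set.ncard_univ]; simp
  rw [h2] at h
  omega

theorem V1_le (hC : StmtCharge) (R : Finset ι) (k ξ : ℕ) :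
    ξ * (V1 F R k ξ).ncard ≤ s * (k + 1) * 2 * (Q F R (k + ξ)).ncard := by
  classical
  have hcov : V1 F R k ξ ⊆ ⋃ y ∈ arcs F R, {w : Finset ι × (ℝ × ℝ) |
      ∃ p ∈ Sab F R k ξ y.1.1 y.1.2 y.2, w.1 = {y.1.1, y.1.2, p.1} ∧ w.2 ∈ TP F w.1} := by
    rintro ⟨T, v⟩ ⟨h1, h2, h3, u, hu, a, b, c, hI, o, τ, ho, hl, he⟩
    simp only at h1 h2 h3 hu hI
    simp only [mem_iUnion]
    have hmem := is3_mem h2 hI
    obtain ⟨ha, hb, hc, hab, hac, hbc⟩ := hI
    refine ⟨⟨(a, b), o⟩, ?_, (c, τ), ?_, ?_, h3⟩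
    · rw [mem_arcs]
      exact ⟨⟨h1 ha, h1 hb⟩, hab⟩
    · refine ⟨⟨h1 hc, hac.symm, hbc.symm⟩, ?_, ?_, ?_⟩
      · rw [gg_zero]
        simp only
        rw [ho]
        exact hu c hc a ha
      · simp only
        rw [ho]
        exact hl
      · exact he
    · ext x
      simp only [Finset.mem_insert, Finset.mem_singleton]
      exact hmem x
  have h := ncard_biUnion_le_sum (arcs F R) (fun y => {w : Finset ι × (ℝ × ℝ) |
      ∃ p ∈ Sab F R k ξ y.1.1 y.1.2 y.2, w.1 = {y.1.1, y.1.2, p.1} ∧ w.2 ∈ TP F w.1})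
      (fun y => (Sab F R k ξ y.1.1 y.1.2 y.2).ncard * s) (by
    rintro ⟨⟨a, b⟩, o⟩ hy
    rw [mem_arcs] at hy
    simp only at hy ⊢
    have hf : (Sab F R k ξ a b o).Finite :=
      (Eab_finite F R k hy.2 o).subset (Sab_subset F R k ξ a b o)
    have hsub : {w : Finset ι × (ℝ × ℝ) |
        ∃ p ∈ Sab F R k ξ a b o, w.1 = {a, b, p.1} ∧ w.2 ∈ TP F w.1} ⊆
        ⋃ p ∈ hf.toFinset, (fun x => (({a, b, p.1} : Finset ι), x)) '' TP F {a, b, p.1} := by
      rintro ⟨T, v⟩ ⟨p, hp, h1, h2⟩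
      simp only at h1 h2
      simp only [mem_iUnion]
      refine ⟨p, (Set.Finite.mem_toFinset hf).2 hp, v, ?_, ?_⟩
      · rw [← h1]; exact h2
      · simp only [h1]
    have hb := ncard_biUnion_le hf.toFinset
      (fun p => (fun x => (({a, b, p.1} : Finset ι), x)) '' TP F {a, b, p.1}) s (by
      intro p hp
      rw [Set.Finite.mem_toFinset] at hp
      have hcard : ({a, b, p.1} : Finset ι).card = 3 :=
        Finset.card_eq_three.2 ⟨a, b, p.1, hy.2, hp.1.2.1.symm, hp.1.2.2.symm, rfl⟩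
      exact ⟨(TP_finite F hcard).image _,
        (Set.ncard_image_le (TP_finite F hcard)).trans (TP_ncard F hcard)⟩)
    rw [← Set.ncard_eq_toFinset_card _ hf] at hb
    exact ⟨hb.1.subset hsub, (Set.ncard_le_ncard hsub hb.1).trans hb.2⟩)
  have h1 : (V1 F R k ξ).ncard ≤ ∑ y ∈ arcs F R, (Sab F R k ξ y.1.1 y.1.2 y.2).ncard * s :=
    (Set.ncard_le_ncard hcov h.1).trans h.2
  calc ξ * (V1 F R k ξ).ncard
      ≤ ξ * ∑ y ∈ arcs F R, (Sab F R k ξ y.1.1 y.1.2 y.2).ncard * s := Nat.mul_le_mul_left _ h1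
    _ = ∑ y ∈ arcs F R, s * (ξ * (Sab F R k ξ y.1.1 y.1.2 y.2).ncard) := by
        rw [Finset.mul_sum]
        refine Finset.sum_congr rfl fun y _ => ?_
        ring
    _ ≤ ∑ y ∈ arcs F R, s * ((k + 1) * (Eab F R (k + ξ) y.1.1 y.1.2 y.2).ncard) := by
        refine Finset.sum_le_sum fun y hy => Nat.mul_le_mul_left _ ?_
        rw [mem_arcs] at hy
        exact charge_ab F hC R k ξ hy.2 y.2
    _ = s * (k + 1) * ∑ y ∈ arcs F R, (Eab F R (k + ξ) y.1.1 y.1.2 y.2).ncard := by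
        rw [Finset.mul_sum]
        refine Finset.sum_congr rfl fun y _ => ?_
        ring
    _ ≤ s * (k + 1) * (2 * (Q F R (k + ξ)).ncard) := Nat.mul_le_mul_left _ (sum_Eab F R (k + ξ))
    _ = s * (k + 1) * 2 * (Q F R (k + ξ)).ncard := by ring

end Pool.Agent.Helper57.Env
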