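import Pool.Agent.Helper57.Env.Asm3

/-!
# Assembly for MP_07d5fa_co, part 4: the recursion
-/

namespace Pool.Agent.Helper57.Env

open Set

variable {ι : Type} {s t : ℕ} (F : Par ι s t)

theorem V2_le [Finite ι] (hS : StmtSample) (hE : StmtClean1) (hK : StmtClean2) (R : Finset ι)
    (k : ℕ) : (V2 F R k).ncard ≤ 2 ^ (k + 3) * (5 * s * t) * R.card ^ 2 := by
  classical
  have hex : ∀ y : Finset ι × (ℝ × ℝ), ∃ L : Finset ι, y ∈ V2 F R k →
      (L ⊆ R ∧ Disjoint y.1 L ∧ L.card ≤ k ∧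
      ∀ R' : Finset ι, y.1 ⊆ R' → R' ⊆ R → Disjoint R' L →
        CleanI F R' y.1 ∨ CleanU F R' y.1 ∨ CleanK F R' y.1 y.2) := by
    intro y
    by_cases hy : y ∈ V2 F R k
    · obtain ⟨-, -, -, L, hL⟩ := hy
      exact ⟨L, fun _ => hL⟩
    · exact ⟨∅, fun h => absurd h hy⟩
  choose L hL using hex
  refine hS (V2 F R k) Prod.fst L R k (5 * s * t) (V2_finite F R k) ?_ ?_
  · intro z hz
    obtain ⟨h1, h2, h3, -⟩ := hL z hz
    exact ⟨hz.1, hz.2.1, h1, h2, h3⟩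
  · intro R' hR'
    have f1 : {T : Finset ι | T ⊆ R' ∧ T.card = 3 ∧ (CleanI F R' T ∨ CleanU F R' T)}.Finite :=
      (Finset.finite_toSet (R'.powersetCard 3)).subset fun T hT => by
        rw [Finset.mem_coe, Finset.mem_powersetCard]
        exact ⟨hT.1, hT.2.1⟩
    have h1 := ncard_biUnion_le f1.toFinset (fun T => (fun x => (T, x)) '' TP F T) s (by
      intro T hT
      rw [Set.Finite.mem_toFinset] at hT
      exact ⟨(TP_finite F hT.2.1).image _,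
        (Set.ncard_image_le (TP_finite F hT.2.1)).trans (TP_ncard F hT.2.1)⟩)
    rw [← Set.ncard_eq_toFinset_card _ f1] at h1
    have h2 := hE F R'
    have h3 := hK F R'
    have hsub : {z | z ∈ V2 F R k ∧ z.1 ⊆ R' ∧ Disjoint R' (L z)} ⊆
        (⋃ T ∈ f1.toFinset, (fun x => (T, x)) '' TP F T) ∪
        {z : Finset ι × (ℝ × ℝ) | z.1 ⊆ R' ∧ z.1.card = 3 ∧ z.2 ∈ TP F z.1 ∧
          CleanK F R' z.1 z.2} := by
      rintro ⟨T, v⟩ ⟨hz, hT, hd⟩
      obtain ⟨-, -, -, h4⟩ := hL _ hz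
      simp only at hT
      have h5 := h4 R' hT hR' hd
      rcases h5 with h5 | h5 | h5
      · left
        simp only [mem_iUnion]
        exact ⟨T, (Set.Finite.mem_toFinset f1).2 ⟨hT, hz.2.1, Or.inl h5⟩, v, hz.2.2.1, rfl⟩
      · left
        simp only [mem_iUnion]
        exact ⟨T, (Set.Finite.mem_toFinset f1).2 ⟨hT, hz.2.1, Or.inr h5⟩, v, hz.2.2.1, rfl⟩
      · right
        exact ⟨hT, hz.2.1, hz.2.2.1, h5⟩
    have f2 : {z : Finset ι × (ℝ × ℝ) | z.1 ⊆ R' ∧ z.1.card = 3 ∧ z.2 ∈ TP F z.1 ∧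
          CleanK F R' z.1 z.2}.Finite :=
      (big_finite F R').subset fun _ h => ⟨h.1, h.2.1, h.2.2.1⟩
    refine (Set.ncard_le_ncard hsub (h1.1.union f2)).trans
      ((Set.ncard_union_le _ _).trans ?_)
    calc (⋃ T ∈ f1.toFinset, (fun x => (T, x)) '' TP F T).ncard +
          {z : Finset ι × (ℝ × ℝ) | z.1 ⊆ R' ∧ z.1.card = 3 ∧ z.2 ∈ TP F z.1 ∧
          CleanK F R' z.1 z.2}.ncard
        ≤ (3 * t * R'.card ^ 2) * s + 2 * s * t * R'.card ^ 2 :=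
          Nat.add_le_add (h1.2.trans (Nat.mul_le_mul_right s h2)) h3
      _ = 5 * s * t * R'.card ^ 2 := by ring

theorem recursion_ineq [Finite ι] (hC : StmtCharge) (hD : StmtDich) (hS : StmtSample)
    (hE : StmtClean1) (hK : StmtClean2) (ξ : ℕ → ℕ) (hξ : StrictMono ξ) (h0 : 1 ≤ ξ 0)
    (R : Finset ι) :
    ((Q F R 0).ncard : ℝ) ≤ ∑ m ∈ Finset.range (54 * s + 1),
      ((54 * s + 1080 * s * t : ℝ) * ((12 * s : ℕ) * ξ m + 1) / ξ (m + 1) *
        ((Q F R (12 * s * ξ m + ξ (m + 1))).ncard : ℝ) +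
      (54 * s + 1080 * s * t : ℝ) * 2 ^ (12 * s * ξ m) * (R.card : ℝ) ^ 2) := by
  have h1 := Q0_le F R
  have hcov := V0_cover F hD R ξ hξ
  have h2 := ncard_biUnion_le_sum (Finset.range (54 * s + 1))
    (fun m => V1 F R (12 * s * ξ m) (ξ (m + 1)) ∪ V2 F R (12 * s * ξ m))
    (fun m => (V1 F R (12 * s * ξ m) (ξ (m + 1))).ncard + (V2 F R (12 * s * ξ m)).ncard)
    (fun m _ => ⟨(V1_finite F R _ _).union (V2_finite F R _), Set.ncard_union_le _ _⟩)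
  have h3 : (Q F R 0).ncard ≤ ∑ m ∈ Finset.range (54 * s + 1),
      ((V1 F R (12 * s * ξ m) (ξ (m + 1))).ncard + (V2 F R (12 * s * ξ m)).ncard) * 27 := by
    refine h1.trans ?_
    rw [← Finset.sum_mul]
    exact Nat.mul_le_mul_right 27 ((Set.ncard_le_ncard hcov h2.1).trans h2.2)
  have h4 : ((Q F R 0).ncard : ℝ) ≤ ∑ m ∈ Finset.range (54 * s + 1),
      (((V1 F R (12 * s * ξ m) (ξ (m + 1))).ncard : ℝ) +
        ((V2 F R (12 * s * ξ m)).ncard : ℝ)) * 27 := by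
    exact_mod_cast h3
  refine h4.trans (Finset.sum_le_sum fun m _ => ?_)
  rw [add_mul]
  have hpos : (0 : ℝ) < ξ (m + 1) := by
    have : ξ 0 ≤ ξ (m + 1) := hξ.monotone (Nat.zero_le _)
    exact_mod_cast lt_of_lt_of_le Nat.zero_lt_one (h0.trans this)
  have hs : (0 : ℝ) ≤ s := Nat.cast_nonneg _
  have ht : (0 : ℝ) ≤ t := Nat.cast_nonneg _
  have hst : (0 : ℝ) ≤ s * t := mul_nonneg hs ht
  refine add_le_add ?_ ?_
  · have h5 := V1_le F hC R (12 * s * ξ m) (ξ (m + 1))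
    have h6 : (ξ (m + 1) : ℝ) * ((V1 F R (12 * s * ξ m) (ξ (m + 1))).ncard : ℝ) ≤
        s * (12 * s * ξ m + 1) * 2 * ((Q F R (12 * s * ξ m + ξ (m + 1))).ncard : ℝ) := by
      exact_mod_cast h5
    rw [div_mul_eq_mul_div, le_div_iff₀ hpos]
    have hq : (0 : ℝ) ≤ ((Q F R (12 * s * ξ m + ξ (m + 1))).ncard : ℝ) := Nat.cast_nonneg _
    have hx : (0 : ℝ) ≤ ξ m := Nat.cast_nonneg _
    have hnn : 0 ≤ (12 * (s : ℝ) * ξ m + 1) := by positivity
    calc ((V1 F R (12 * s * ξ m) (ξ (m + 1))).ncard : ℝ) * 27 * ξ (m + 1)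
        = 27 * ((ξ (m + 1) : ℝ) * ((V1 F R (12 * s * ξ m) (ξ (m + 1))).ncard : ℝ)) := by ring
      _ ≤ 27 * (s * (12 * s * ξ m + 1) * 2 *
            ((Q F R (12 * s * ξ m + ξ (m + 1))).ncard : ℝ)) := by
          exact mul_le_mul_of_nonneg_left h6 (by norm_num)
      _ = 54 * s * (12 * (s : ℝ) * ξ m + 1) *
            ((Q F R (12 * s * ξ m + ξ (m + 1))).ncard : ℝ) := by ring
      _ ≤ (54 * s + 1080 * s * t) * (12 * (s : ℝ) * ξ m + 1) *
            ((Q F R (12 * s * ξ m + ξ (m + 1))).ncard : ℝ) := by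
          refine mul_le_mul_of_nonneg_right (mul_le_mul_of_nonneg_right ?_ hnn) hq
          nlinarith
      _ = _ := by push_cast; ring
  · have h5 := V2_le F hS hE hK R (12 * s * ξ m)
    have h6 : ((V2 F R (12 * s * ξ m)).ncard : ℝ) ≤
        2 ^ (12 * s * ξ m + 3) * (5 * s * t) * (R.card : ℝ) ^ 2 := by
      exact_mod_cast h5
    have hp : (0 : ℝ) ≤ 2 ^ (12 * s * ξ m) := by positivity
    have hR : (0 : ℝ) ≤ (R.card : ℝ) ^ 2 := by positivity
    calc ((V2 F R (12 * s * ξ m)).ncard : ℝ) * 27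
        ≤ (2 ^ (12 * s * ξ m + 3) * (5 * s * t) * (R.card : ℝ) ^ 2) * 27 :=
          mul_le_mul_of_nonneg_right h6 (by norm_num)
      _ = (1080 * s * t) * 2 ^ (12 * s * ξ m) * (R.card : ℝ) ^ 2 := by
          rw [pow_add]; ring
      _ ≤ (54 * s + 1080 * s * t) * 2 ^ (12 * s * ξ m) * (R.card : ℝ) ^ 2 := by
          refine mul_le_mul_of_nonneg_right (mul_le_mul_of_nonneg_right ?_ hp) hR
          nlinarith

theorem Q0_bound (hC : StmtCharge) (hD : StmtDich) (hS : StmtSample)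
    (hE : StmtClean1) (hK : StmtClean2) (hH : StmtRec) (s t : ℕ) (ε : ℝ) (hε : 0 < ε) :
    ∃ C : ℝ, ∀ {ι : Type} [Finite ι] (F : Par ι s t) (R : Finset ι),
      ((Q F R 0).ncard : ℝ) ≤ C * (R.card : ℝ) ^ (2 + ε) := by
  have hs : (0 : ℝ) ≤ s := Nat.cast_nonneg _
  have ht : (0 : ℝ) ≤ t := Nat.cast_nonneg _
  have hst : (0 : ℝ) ≤ s * t := mul_nonneg hs ht
  obtain ⟨C, hCC⟩ := hH (54 * s + 1080 * s * t : ℝ) (54 * s) (12 * s) ε (by nlinarith) hε
  refine ⟨C, fun {ι} _ F R => ?_⟩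
  have e0 : ∀ R : Finset ι, {z | z ∈ qO F ∧ qT z ⊆ R ∧ {l | l ∈ qB F z ∧ l ∈ R}.ncard = 0} =
      Q F R 0 := by
    intro R
    rw [Q_eq]
    simp only [Nat.le_zero]
  have h := hCC (qO F) qT (qB F) (qO_finite F)
    (fun z hz => ⟨qT_card F hz, qT_qB_disjoint F hz⟩)
    (fun R => by
      have h1 := (qO_fiber F R).2
      have h2 : ({z | z ∈ qO F ∧ qT z ⊆ R}.ncard : ℝ) ≤ (R.card : ℝ) ^ 3 * s := by
        exact_mod_cast h1
      refine h2.trans ?_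
      have hR : (0 : ℝ) ≤ (R.card : ℝ) ^ 3 := by positivity
      rw [mul_comm]
      refine mul_le_mul_of_nonneg_right ?_ hR
      nlinarith)
    (fun ξ hξ h0 R => by
      have h1 := recursion_ineq F hC hD hS hE hK ξ hξ h0 R
      rw [e0]
      refine h1.trans (le_of_eq ?_)
      refine Finset.sum_congr rfl fun m _ => ?_
      rw [Q_eq]) R
  rw [e0] at h
  exact h

end Pool.Agent.Helper57.Env
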