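import Pool.Agent.Helper57.Env.Asm4

/-!
# Assembly for MP_07d5fa_co, part 5: the final bound
-/

namespace Pool.Agent.Helper57.Env

open Set

theorem vertices_le {n s t : ℕ} (F : Par (Fin n) s t) :
    vertices F.f ≤ ((Q F Finset.univ 0).ncard : ℕ∞) := by
  classical
  have hfin := qO_sub_finite F (Finset.univ : Finset (Fin n)) 0
  rw [hfin.cast_ncard_eq]
  unfold vertices
  have hex : ∀ x ∈ {x : ℝ × ℝ | 3 ≤ (att F.f x).encard}, ∃ z : Fin n × Fin n × Fin n × (ℝ × ℝ),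
      z ∈ Q F Finset.univ 0 ∧ z.2.2.2 = x := by
    intro x hx
    obtain ⟨T, hT, hT3⟩ := Set.exists_subset_encard_eq hx
    obtain ⟨a, b, c, hab, hac, hbc, rfl⟩ := Set.encard_eq_three.1 hT3
    have ha : a ∈ att F.f x := hT (by simp)
    have hb : b ∈ att F.f x := hT (by simp)
    have hc : c ∈ att F.f x := hT (by simp)
    refine ⟨(a, b, c, x), ⟨⟨Finset.mem_univ _, Finset.mem_univ _, Finset.mem_univ _⟩,
      ⟨hab, hac, hbc⟩, ⟨le_antisymm (ha b) (hb a), le_antisymm (hb c) (hc b)⟩, ?_⟩, rfl⟩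
    unfold lev
    rw [Nat.le_zero, Set.ncard_eq_zero (Set.toFinite _), Set.eq_empty_iff_forall_notMem]
    rintro l ⟨-, hl⟩
    exact absurd (ha l) (not_le.2 hl)
  have hsub : {x : ℝ × ℝ | 3 ≤ (att F.f x).encard} ⊆
      (fun z : Fin n × Fin n × Fin n × (ℝ × ℝ) => z.2.2.2) '' Q F Finset.univ 0 := by
    intro x hx
    obtain ⟨z, hz, he⟩ := hex x hx
    exact ⟨z, hz, he⟩
  exact (Set.encard_le_encard hsub).trans (Set.encard_image_le _ _)

theorem main_bound (hC : StmtCharge) (hD : StmtDich) (hS : StmtSample)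
    (hE : StmtClean1) (hK : StmtClean2) (hH : StmtRec) (hI : StmtPar) (hJ : StmtEdges)
    (hF : StmtFaces) (s t : ℕ) (ε : ℝ) (hε : 0 < ε) :
    ∃ C : ℝ, ∀ (n : ℕ) (f : Fin n → ℝ × ℝ → ℝ), Fam s t f →
      ∃ k : ℕ, kappa f = k ∧ (k : ℝ) ≤ C * (n : ℝ) ^ (2 + ε) := by
  obtain ⟨C, hCC⟩ := Q0_bound hC hD hS hE hK hH s t ε hε
  refine ⟨1 + 6 * t + 13 * max C 0, fun n f hf => ?_⟩
  obtain ⟨F, rfl⟩ := hI f hf
  have h1 := vertices_le F
  have h2 := hCC F Finset.univ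
  rw [Finset.card_univ, Fintype.card_fin] at h2
  set v := (Q F Finset.univ 0).ncard with hv
  have h3 := hJ F
  have h4 := hF F.f hf.cont hf.quad
  have h5 : kappa F.f ≤ ((n + 6 * t * n ^ 2 + 13 * v : ℕ) : ℕ∞) := by
    unfold kappa
    calc faces F.f + edges F.f + vertices F.f
        ≤ (n + 2 * edges F.f + 3 * vertices F.f) + edges F.f + vertices F.f := by gcongr
      _ = n + 3 * edges F.f + 4 * vertices F.f := by ring
      _ ≤ n + 3 * (2 * t * (n : ℕ∞) ^ 2 + 3 * vertices F.f) + 4 * vertices F.f := by gcongr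
      _ = n + 6 * t * (n : ℕ∞) ^ 2 + 13 * vertices F.f := by ring
      _ ≤ n + 6 * t * (n : ℕ∞) ^ 2 + 13 * (v : ℕ∞) := by gcongr
      _ = _ := by push_cast; ring
  obtain ⟨k, hk⟩ := ENat.ne_top_iff_exists.1 (ne_top_of_le_ne_top (ENat.natCast_ne_top _) h5)
  refine ⟨k, hk.symm, ?_⟩
  rw [← hk] at h5
  have h6 : k ≤ n + 6 * t * n ^ 2 + 13 * v := by exact_mod_cast h5
  have h7 : (k : ℝ) ≤ n + 6 * t * (n : ℝ) ^ 2 + 13 * v := by exact_mod_cast h6
  rcases Nat.eq_zero_or_pos n with rfl | hn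
  · have e : ((0 : ℕ) : ℝ) ^ (2 + ε) = 0 := by
      rw [Nat.cast_zero]
      exact Real.zero_rpow (by linarith)
    rw [e] at h2 ⊢
    have : (v : ℝ) ≤ 0 := by linarith
    simp only [Nat.cast_zero] at h7
    nlinarith
  · have hn1 : (1 : ℝ) ≤ n := by exact_mod_cast hn
    have e1 : (n : ℝ) ≤ (n : ℝ) ^ (2 + ε) := by
      calc (n : ℝ) = (n : ℝ) ^ (1 : ℝ) := (Real.rpow_one _).symm
        _ ≤ _ := Real.rpow_le_rpow_of_exponent_le hn1 (by linarith)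
    have e2 : (n : ℝ) ^ 2 ≤ (n : ℝ) ^ (2 + ε) := by
      calc (n : ℝ) ^ 2 = (n : ℝ) ^ (2 : ℝ) := (Real.rpow_two _).symm
        _ ≤ _ := Real.rpow_le_rpow_of_exponent_le hn1 (by linarith)
    have e3 : (0 : ℝ) ≤ (n : ℝ) ^ (2 + ε) := by positivity
    have e4 : (v : ℝ) ≤ max C 0 * (n : ℝ) ^ (2 + ε) :=
      h2.trans (mul_le_mul_of_nonneg_right (le_max_left _ _) e3)
    have ht : (0 : ℝ) ≤ t := Nat.cast_nonneg _
    have e5 : 6 * t * (n : ℝ) ^ 2 ≤ 6 * t * (n : ℝ) ^ (2 + ε) :=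
      mul_le_mul_of_nonneg_left e2 (by positivity)
    nlinarith

end Pool.Agent.Helper57.Env
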