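import Mathlib

/-!
# Definitions for MP_07d5fa_co (lower envelopes of bivariate functions, topological class)
-/

namespace Pool.Agent.Helper57.Env

open Set

/-- A planar set which becomes, after deletion of at most `t` points, homeomorphic to a disjoint
union of at most `t` lines. -/
def IsCurve (t : ℕ) (γ : Set (ℝ × ℝ)) : Prop :=
  ∃ P : Finset (ℝ × ℝ), P.card ≤ t ∧
    ∃ m ≤ t, Nonempty (↥(γ \ (P : Set (ℝ × ℝ))) ≃ₜ Fin m × ℝ)

/-- The families of functions of the problem. -/
structure Fam {n : ℕ} (s t : ℕ) (f : Fin n → ℝ × ℝ → ℝ) : Prop where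
  cont : ∀ i, Continuous (f i)
  triple : ∀ i j k, i ≠ j → i ≠ k → j ≠ k → {x | f i x = f j x ∧ f j x = f k x}.encard ≤ s
  curve : ∀ i j, i ≠ j → IsCurve t {x | f i x = f j x}
  quad : ∀ i j k l, i ≠ j → i ≠ k → i ≠ l → j ≠ k → j ≠ l → k ≠ l →
    ∀ x, ¬ (f i x = f j x ∧ f j x = f k x ∧ f k x = f l x)

/-- The set of indices at which the minimum is attained. -/
def att {n : ℕ} (f : Fin n → ℝ × ℝ → ℝ) (x : ℝ × ℝ) : Set (Fin n) := {i | ∀ j, f i x ≤ f j x}

/-- Number of faces of the minimization diagram. -/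
noncomputable def faces {n : ℕ} (f : Fin n → ℝ × ℝ → ℝ) : ℕ∞ :=
  ∑ i, ENat.card (ConnectedComponents ↥{x | i ∈ att f x})

/-- Number of edges of the minimization diagram. -/
noncomputable def edges {n : ℕ} (f : Fin n → ℝ × ℝ → ℝ) : ℕ∞ :=
  ∑ i, ∑ j ∈ Finset.Ioi i, ENat.card (ConnectedComponents ↥{x | att f x = {i, j}})

/-- Number of vertices of the minimization diagram. -/
noncomputable def vertices {n : ℕ} (f : Fin n → ℝ × ℝ → ℝ) : ℕ∞ :=
  {x | 3 ≤ (att f x).encard}.encard

/-- The complexity of the minimization diagram. -/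
noncomputable def kappa {n : ℕ} (f : Fin n → ℝ × ℝ → ℝ) : ℕ∞ := faces f + edges f + vertices f

end Pool.Agent.Helper57.Env
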