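import Pool.Agent.Helper57.Env.Base

/-!
# Auxiliary definitions for MP_07d5fa_co
-/

namespace Pool.Agent.Helper57.Env

open Set

/-! ### Families with parametrised curves -/

/-- A family with parametrised pairwise intersection curves: `P i j` are the exceptional points and
`c i j α`, `α < m i j`, the arcs of the curve `f i = f j`. -/
structure Par (ι : Type) (s t : ℕ) where
  f : ι → ℝ × ℝ → ℝ
  cont : ∀ i, Continuous (f i)
  triple : ∀ i j k, i ≠ j → i ≠ k → j ≠ k → {x | f i x = f j x ∧ f j x = f k x}.encard ≤ s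
  quad : ∀ i j k l, i ≠ j → i ≠ k → i ≠ l → j ≠ k → j ≠ l → k ≠ l →
    ∀ x, ¬ (f i x = f j x ∧ f j x = f k x ∧ f k x = f l x)
  P : ι → ι → Finset (ℝ × ℝ)
  P_card : ∀ i j, (P i j).card ≤ t
  m : ι → ι → ℕ
  m_le : ∀ i j, m i j ≤ t
  c : (i j : ι) → Fin (m i j) → ℝ → ℝ × ℝ
  c_cont : ∀ i j α, Continuous (c i j α)
  c_eq : ∀ i j α τ, f i (c i j α τ) = f j (c i j α τ)
  c_not : ∀ i j α τ, c i j α τ ∉ P i j
  c_inj : ∀ i j α β σ τ, c i j α σ = c i j β τ → α = β ∧ σ = τ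
  c_surj : ∀ i j x, i ≠ j → f i x = f j x → x ∉ P i j → ∃ α τ, c i j α τ = x
  c_open : ∀ i j α τ δ, 0 < δ → ∃ O : Set (ℝ × ℝ), IsOpen O ∧ c i j α τ ∈ O ∧
    ∀ x ∈ O, f i x = f j x → ∃ σ, |σ - τ| < δ ∧ c i j α σ = x

variable {ι : Type} {s t : ℕ} (F : Par ι s t)

/-- Oriented arcs. -/
abbrev Or (F : Par ι s t) (a b : ι) : Type := Fin (F.m a b) × Bool

/-- Parametrisation of the oriented arcs. -/
def oc (a b : ι) (o : Or F a b) (τ : ℝ) : ℝ × ℝ := F.c a b o.1 (if o.2 then τ else -τ)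

/-- The points at which all functions of `T` agree. -/
def TP (T : Finset ι) : Set (ℝ × ℝ) := {x | ∀ a ∈ T, ∀ b ∈ T, F.f a x = F.f b x}

/-- `a`, `b`, `c` are the three elements of `T`. -/
def Is3 (T : Finset ι) (a b c : ι) : Prop :=
  a ∈ T ∧ b ∈ T ∧ c ∈ T ∧ a ≠ b ∧ a ≠ c ∧ b ≠ c

/-- Number of functions of `R` below `f a` at `x`. -/
noncomputable def lev (R : Finset ι) (a : ι) (x : ℝ × ℝ) : ℕ := {l | l ∈ R ∧ F.f l x < F.f a x}.ncard

/-- The (ordered) triple points of level at most `k`. -/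
def Q (R : Finset ι) (k : ℕ) : Set (ι × ι × ι × (ℝ × ℝ)) :=
  {z | (z.1 ∈ R ∧ z.2.1 ∈ R ∧ z.2.2.1 ∈ R) ∧ (z.1 ≠ z.2.1 ∧ z.1 ≠ z.2.2.1 ∧ z.2.1 ≠ z.2.2.1) ∧
    (F.f z.1 z.2.2.2 = F.f z.2.1 z.2.2.2 ∧ F.f z.2.1 z.2.2.2 = F.f z.2.2.1 z.2.2.2) ∧
    lev F R z.1 z.2.2.2 ≤ k}

/-- The events on the part of the oriented arc to the right of `τ` on which `f c` is hidden below
`f a = f b`. -/
def evR (R : Finset ι) (a b c : ι) (o : Or F a b) (τ : ℝ) : Set (ι × ℝ) :=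
  {p | p.1 ∈ R ∧ p.1 ≠ a ∧ p.1 ≠ b ∧ p.1 ≠ c ∧
    F.f p.1 (oc F a b o p.2) = F.f a (oc F a b o p.2) ∧ τ < p.2 ∧
    ∀ σ ∈ Ioc τ p.2, F.f c (oc F a b o σ) < F.f a (oc F a b o σ)}

/-- All functions of `R` outside `T` are above those of `T` at the point `u` (at which the functions
of `T` agree). -/
def Above (R T : Finset ι) (u : ℝ × ℝ) : Prop := ∀ l ∈ R, l ∉ T → ∀ a ∈ T, F.f a u < F.f l u

/-- A clean triple with an exceptional point. -/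
def CleanI (R T : Finset ι) : Prop :=
  ∃ u ∈ TP F T, (∃ a ∈ T, ∃ b ∈ T, a ≠ b ∧ u ∈ F.P a b) ∧ Above F R T u

/-- A clean triple with an unbounded hidden interval. -/
def CleanU (R T : Finset ι) : Prop :=
  ∃ a b c, Is3 T a b c ∧ ∃ (o : Or F a b) (τ : ℝ), ∀ σ, τ < σ →
    F.f c (oc F a b o σ) < F.f a (oc F a b o σ) ∧
      ∀ l ∈ R, l ∉ T → F.f a (oc F a b o σ) < F.f l (oc F a b o σ)

/-- Two triple points joined by a hidden interval. -/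
def Step (T : Finset ι) (u u' : ℝ × ℝ) : Prop :=
  ∃ a b c, Is3 T a b c ∧ ∃ (o : Or F a b) (τ τ' : ℝ), τ < τ' ∧ oc F a b o τ = u ∧
    oc F a b o τ' = u' ∧ u' ∈ TP F T ∧
    ∀ σ ∈ Ioo τ τ', F.f c (oc F a b o σ) < F.f a (oc F a b o σ)

/-- A good triple point: regular, nothing below, and all hidden intervals at it are bounded and
clean. -/
def Good (R T : Finset ι) (u : ℝ × ℝ) : Prop :=
  (∀ a ∈ T, ∀ b ∈ T, a ≠ b → u ∉ F.P a b) ∧ Above F R T u ∧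
  ∀ a b c, Is3 T a b c → ∀ (o : Or F a b) (τ : ℝ), oc F a b o τ = u →
    (∃ q, τ < q ∧ ∀ σ ∈ Ioc τ q, F.f c (oc F a b o σ) < F.f a (oc F a b o σ)) →
    ∃ τ', τ < τ' ∧ F.f c (oc F a b o τ') = F.f a (oc F a b o τ') ∧ ∀ σ ∈ Ioo τ τ',
      F.f c (oc F a b o σ) < F.f a (oc F a b o σ) ∧
        ∀ l ∈ R, l ∉ T → F.f a (oc F a b o σ) < F.f l (oc F a b o σ)

/-- A vertex whose whole (bounded) component of the maximization diagram of `T` is clean. -/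
def CleanK (R T : Finset ι) (v : ℝ × ℝ) : Prop :=
  ∀ u, Relation.ReflTransGen (Step F T) v u → Good F R T u

end Pool.Agent.Helper57.Env
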