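import Pool.Agent.Helper57.Env.Stmts

/-!
# Packet I for MP_07d5fa_co: from curves to parametrised curves
-/

namespace Pool.Agent.Helper57.Env

open Set

theorem exists_data {t : ℕ} {γ : Set (ℝ × ℝ)} (h : IsCurve t γ) :
    ∃ (P : Finset (ℝ × ℝ)) (m : ℕ) (c : Fin m → ℝ → ℝ × ℝ), P.card ≤ t ∧ m ≤ t ∧
      (∀ α, Continuous (c α)) ∧ (∀ α τ, c α τ ∈ γ) ∧ (∀ α τ, c α τ ∉ P) ∧
      (∀ α β σ τ, c α σ = c β τ → α = β ∧ σ = τ) ∧
      (∀ x ∈ γ, x ∉ P → ∃ α τ, c α τ = x) ∧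
      (∀ α τ δ, 0 < δ → ∃ O : Set (ℝ × ℝ), IsOpen O ∧ c α τ ∈ O ∧
        ∀ x ∈ O, x ∈ γ → ∃ σ, |σ - τ| < δ ∧ c α σ = x) := by
  obtain ⟨P, hP, m, hm, ⟨φ⟩⟩ := h
  refine ⟨P, m, fun α τ => (φ.symm (α, τ)).1, hP, hm, ?_, ?_, ?_, ?_, ?_, ?_⟩
  · intro α
    exact continuous_subtype_val.comp (φ.symm.continuous.comp (Continuous.prodMk_right α))
  · intro α τ
    exact (φ.symm (α, τ)).2.1
  · intro α τ
    exact (φ.symm (α, τ)).2.2
  · intro α β σ τ he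
    have := φ.symm.injective (Subtype.ext he)
    exact ⟨congrArg Prod.fst this, congrArg Prod.snd this⟩
  · intro x hx hxP
    refine ⟨(φ ⟨x, hx, hxP⟩).1, (φ ⟨x, hx, hxP⟩).2, ?_⟩
    exact congrArg Subtype.val (φ.symm_apply_apply ⟨x, hx, hxP⟩)
  · intro α τ δ hδ
    have hop : IsOpen (φ ⁻¹' ({α} ×ˢ Metric.ball τ δ)) :=
      ((isOpen_discrete _).prod Metric.isOpen_ball).preimage φ.continuous
    obtain ⟨O, hO, hOe⟩ := isOpen_induced_iff.1 hop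
    refine ⟨O \ (P : Set (ℝ × ℝ)), hO.sdiff P.finite_toSet.isClosed, ⟨?_, (φ.symm (α, τ)).2.2⟩, ?_⟩
    · have h1 : φ.symm (α, τ) ∈ Subtype.val ⁻¹' O := by
        rw [hOe, mem_preimage, φ.apply_symm_apply]
        exact ⟨rfl, Metric.mem_ball_self hδ⟩
      exact h1
    · rintro x ⟨hxO, hxP⟩ hx
      have h1 : (⟨x, hx, hxP⟩ : ↥(γ \ (P : Set (ℝ × ℝ)))) ∈ Subtype.val ⁻¹' O := hxO
      rw [hOe] at h1
      obtain ⟨h2, h3⟩ := h1
      have h2' : (φ ⟨x, hx, hxP⟩).1 = α := h2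
      refine ⟨(φ ⟨x, hx, hxP⟩).2, ?_, ?_⟩
      · rw [Metric.mem_ball, Real.dist_eq] at h3
        exact h3
      · subst h2'
        exact congrArg Subtype.val (φ.symm_apply_apply ⟨x, hx, hxP⟩)

theorem stmtPar : StmtPar := by
  intro n s t f hf
  have key : ∀ i j : Fin n, ∃ (P : Finset (ℝ × ℝ)) (m : ℕ) (c : Fin m → ℝ → ℝ × ℝ),
      P.card ≤ t ∧ m ≤ t ∧
      (∀ α, Continuous (c α)) ∧ (∀ α τ, f i (c α τ) = f j (c α τ)) ∧ (∀ α τ, c α τ ∉ P) ∧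
      (∀ α β σ τ, c α σ = c β τ → α = β ∧ σ = τ) ∧
      (∀ x, i ≠ j → f i x = f j x → x ∉ P → ∃ α τ, c α τ = x) ∧
      (∀ α τ δ, 0 < δ → ∃ O : Set (ℝ × ℝ), IsOpen O ∧ c α τ ∈ O ∧
        ∀ x ∈ O, f i x = f j x → ∃ σ, |σ - τ| < δ ∧ c α σ = x) := by
    intro i j
    by_cases hij : i = j
    · refine ⟨∅, 0, fun α => α.elim0, by simp, by simp, fun α => α.elim0, fun α => α.elim0,
        fun α => α.elim0, fun α => α.elim0, fun x hne => absurd hij hne, fun α => α.elim0⟩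
    · obtain ⟨P, m, c, h1, h2, h3, h4, h5, h6, h7, h8⟩ := exists_data (hf.curve i j hij)
      exact ⟨P, m, c, h1, h2, h3, h4, h5, h6, fun x _ hx hP => h7 x hx hP, h8⟩
  choose P m c h1 h2 h3 h4 h5 h6 h7 h8 using key
  exact ⟨{ f := f, cont := hf.cont, triple := hf.triple, quad := hf.quad, P := P, P_card := h1,
           m := m, m_le := h2, c := c, c_cont := h3, c_eq := h4, c_not := h5, c_inj := h6,
           c_surj := h7, c_open := h8 }, rfl⟩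

end Pool.Agent.Helper57.Env
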