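import Pool.Agent.Helper57.Env.Defs

/-!
# Statements of the packets for MP_07d5fa_co
-/

namespace Pool.Agent.Helper57.Env

open Set

/-- Packet A: the component of `Kᶜ` around an isolated piece `K` of the maximization diagram. -/
def StmtOuter : Prop :=
  ∀ {ι : Type} (T : Finset ι) (f : ι → ℝ × ℝ → ℝ), (∀ i, Continuous (f i)) → T.Nonempty →
    ∀ (K W : Set (ℝ × ℝ)) (p : ℝ × ℝ), IsCompact K → IsConnected K → IsOpen W → K ⊆ W →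
      (∀ x ∈ W, ∀ a ∈ T, ∀ b ∈ T, a ≠ b → f a x = f b x → (∀ c ∈ T, f c x ≤ f a x) → x ∈ K) →
      p ∉ K →
      ∃ a ∈ T, ∀ b ∈ T, b ≠ a → ∀ Γ : Set (ℝ × ℝ), IsPreconnected Γ →
        (∀ x ∈ Γ, f a x = f b x) → (Γ ∩ K).Nonempty →
        Disjoint Γ (connectedComponentIn Kᶜ p)

/-- Packet B: two disjoint continua cannot both enclose each other. -/
def StmtNest : Prop :=
  ∀ (K K' : Set (ℝ × ℝ)) (p : ℝ × ℝ), IsCompact K → IsConnected K → IsCompact K' →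
    IsConnected K' → Disjoint K K' → p ∉ K → p ∉ K' →
    ¬ (Disjoint K' (connectedComponentIn Kᶜ p) ∧ Disjoint K (connectedComponentIn K'ᶜ p))

/-- Packet C: the charging lemma on a line. -/
def StmtCharge : Prop :=
  ∀ {ι : Type} (R : Finset ι) (g : ι → ℝ → ℝ), (∀ l ∈ R, Continuous (g l)) →
    (∀ l ∈ R, {τ | g l τ = 0}.Finite) →
    (∀ l ∈ R, ∀ l' ∈ R, l ≠ l' → ∀ τ, g l τ = 0 → g l' τ ≠ 0) →
    ∀ k ξ : ℕ,
      ξ * {p : ι × ℝ | p.1 ∈ R ∧ g p.1 p.2 = 0 ∧ {l | l ∈ R ∧ g l p.2 < 0}.ncard ≤ k ∧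
          ξ ≤ {q : ι × ℝ | q.1 ∈ R ∧ q.1 ≠ p.1 ∧ g q.1 q.2 = 0 ∧ p.2 < q.2 ∧
            ∀ σ ∈ Ioc p.2 q.2, g p.1 σ < 0}.ncard}.ncard ≤
        (k + 1) * {q : ι × ℝ | q.1 ∈ R ∧ g q.1 q.2 = 0 ∧
          {l | l ∈ R ∧ g l q.2 < 0}.ncard ≤ k + ξ}.ncard

/-- Packet D: the dichotomy. -/
def StmtDich : Prop :=
  ∀ {ι : Type} [Finite ι] {s t : ℕ} (F : Par ι s t) (R T : Finset ι) (v : ℝ × ℝ) (ξ : ℕ),
    T ⊆ R → T.card = 3 → v ∈ TP F T → Above F R T v →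
    (∃ u ∈ TP F T, ∃ a b c, Is3 T a b c ∧ ∃ (o : Or F a b) (τ : ℝ), oc F a b o τ = u ∧
      lev F R a u ≤ 12 * s * ξ ∧ ξ ≤ (evR F R a b c o τ).ncard) ∨
    ∃ L : Finset ι, L ⊆ R ∧ Disjoint T L ∧ L.card ≤ 12 * s * ξ ∧
      ∀ R' : Finset ι, T ⊆ R' → R' ⊆ R → Disjoint R' L →
        CleanI F R' T ∨ CleanU F R' T ∨ CleanK F R' T v

/-- Packet E: counting clean triples with an exceptional point or an unbounded interval. -/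
def StmtClean1 : Prop :=
  ∀ {ι : Type} [Finite ι] {s t : ℕ} (F : Par ι s t) (R : Finset ι),
    {T : Finset ι | T ⊆ R ∧ T.card = 3 ∧ (CleanI F R T ∨ CleanU F R T)}.ncard
      ≤ 3 * t * R.card ^ 2

/-- Packet F: counting clean components of maximization diagrams. -/
def StmtClean2 : Prop :=
  ∀ {ι : Type} [Finite ι] {s t : ℕ} (F : Par ι s t) (R : Finset ι),
    {z : Finset ι × (ℝ × ℝ) | z.1 ⊆ R ∧ z.1.card = 3 ∧ z.2 ∈ TP F z.1 ∧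
      CleanK F R z.1 z.2}.ncard ≤ 2 * s * t * R.card ^ 2

/-- Packet G: sampling with conflict sets. -/
def StmtSample : Prop :=
  ∀ {ι Z : Type} [Finite ι] (O : Set Z) (T L : Z → Finset ι) (R : Finset ι) (k B : ℕ),
    O.Finite →
    (∀ z ∈ O, T z ⊆ R ∧ (T z).card = 3 ∧ L z ⊆ R ∧ Disjoint (T z) (L z) ∧ (L z).card ≤ k) →
    (∀ R' ⊆ R, {z | z ∈ O ∧ T z ⊆ R' ∧ Disjoint R' (L z)}.ncard ≤ B * R'.card ^ 2) →
    O.ncard ≤ 2 ^ (k + 3) * B * R.card ^ 2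

/-- Packet H: the recursion. -/
def StmtRec : Prop :=
  ∀ (A : ℝ) (E D : ℕ) (ε : ℝ), 0 ≤ A → 0 < ε → ∃ C : ℝ, ∀ {ι Z : Type} [Finite ι] (O : Set Z)
    (T B : Z → Finset ι), O.Finite → (∀ z ∈ O, (T z).card = 3 ∧ Disjoint (T z) (B z)) →
    (∀ R : Finset ι, ({z | z ∈ O ∧ T z ⊆ R}.ncard : ℝ) ≤ A * (R.card : ℝ) ^ 3) →
    (∀ (ξ : ℕ → ℕ), StrictMono ξ → 1 ≤ ξ 0 → ∀ R : Finset ι,
      ({z | z ∈ O ∧ T z ⊆ R ∧ {l | l ∈ B z ∧ l ∈ R}.ncard = 0}.ncard : ℝ) ≤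
        ∑ m ∈ Finset.range (E + 1),
          (A * (D * ξ m + 1) / ξ (m + 1) *
            ({z | z ∈ O ∧ T z ⊆ R ∧ {l | l ∈ B z ∧ l ∈ R}.ncard ≤ D * ξ m + ξ (m + 1)}.ncard : ℝ)
          + A * 2 ^ (D * ξ m) * (R.card : ℝ) ^ 2)) →
    ∀ R : Finset ι,
      ({z | z ∈ O ∧ T z ⊆ R ∧ {l | l ∈ B z ∧ l ∈ R}.ncard = 0}.ncard : ℝ)
        ≤ C * (R.card : ℝ) ^ (2 + ε)

/-- Packet I: from curves to parametrised curves. -/
def StmtPar : Prop :=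
  ∀ {n s t : ℕ} (f : Fin n → ℝ × ℝ → ℝ), Fam s t f → ∃ F : Par (Fin n) s t, F.f = f

/-- Packet J: edges are controlled by vertices. -/
def StmtEdges : Prop :=
  ∀ {n s t : ℕ} (F : Par (Fin n) s t),
    edges F.f ≤ 2 * t * (n : ℕ∞) ^ 2 + 3 * vertices F.f

/-- Packet K: faces are controlled by edges and vertices. -/
def StmtFaces : Prop :=
  ∀ {n : ℕ} (f : Fin n → ℝ × ℝ → ℝ), (∀ i, Continuous (f i)) →
    (∀ i j k l, i ≠ j → i ≠ k → i ≠ l → j ≠ k → j ≠ l → k ≠ l →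
      ∀ x, ¬ (f i x = f j x ∧ f j x = f k x ∧ f k x = f l x)) →
    faces f ≤ n + 2 * edges f + 3 * vertices f

end Pool.Agent.Helper57.Env
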